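import Pool.Agent.Helper8.Sey.Goals

/-!
# Packet SPLIT of project SEY (MP_b6b2d3_co): iterated halving
-/

namespace Pool.Agent.Helper94.Sey

open Pool.Agent.Helper8.Sey

/-- The degree bounds. -/
noncomputable def B (e x : ℝ) (t : ℕ) : ℕ := ⌈x * 2 ^ t * (1 + e * (3 / 4) ^ t)⌉₊

theorem le_B (e x : ℝ) (t : ℕ) : x * 2 ^ t * (1 + e * (3 / 4) ^ t) ≤ B e x t := Nat.le_ceil _

theorem B_lt {e x : ℝ} (he : 0 ≤ e) (hx : 0 ≤ x) (t : ℕ) :
    (B e x t : ℝ) < x * 2 ^ t * (1 + e * (3 / 4) ^ t) + 1 :=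
  Nat.ceil_lt_add_one (by positivity)

/-- The condition of one halving step. -/
theorem step_ok {e x : ℝ} (he : 0 < e) (he2 : e ≤ 1 / 2) (hx1 : 1 ≤ x) (hx2 : 4 / e ≤ x)
    (hx3 : 24 / (e ^ 2 / 128) ≤ x) (hx4 : 4608 / (e ^ 2 / 128) ^ 3 ≤ x) (t : ℕ) :
    1 ≤ B e x (t + 1) ∧ B e x (t + 1) ≤ 2 * B e x t ∧
    48 * (B e x (t + 1) : ℝ) ^ 2 *
      Real.exp (-(2 * ((B e x t : ℝ) - B e x (t + 1) / 2) ^ 2 / B e x (t + 1))) ≤ 1 := by
  have hx0 : 0 < x := by linarith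
  set D : ℝ := (B e x (t + 1) : ℝ) with hD
  set D' : ℝ := (B e x t : ℝ) with hD'
  set c : ℝ := e ^ 2 / 128 with hc
  have hc0 : 0 < c := by positivity
  have h2t : (0 : ℝ) < 2 ^ t := by positivity
  have h2t1 : (1 : ℝ) ≤ 2 ^ t := one_le_pow₀ (by norm_num)
  have hE0 : (0 : ℝ) < (3 / 4) ^ t := by positivity
  have hE1 : (3 / 4 : ℝ) ^ t ≤ 1 := pow_le_one₀ (by norm_num) (by norm_num)
  have hprod : (2 : ℝ) ^ t * (3 / 4) ^ t = (3 / 2) ^ t := by
    rw [← mul_pow]; norm_num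
  have a1 : x * 2 ^ t * (1 + e * (3 / 4) ^ t) ≤ D' := le_B e x t
  have a2 : D < x * 2 ^ (t + 1) * (1 + e * (3 / 4) ^ (t + 1)) + 1 := B_lt he.le hx0.le (t + 1)
  have a3 : x * 2 ^ (t + 1) * (1 + e * (3 / 4) ^ (t + 1)) ≤ D := le_B e x (t + 1)
  have hDpos : 1 ≤ D := by
    have h1 : (1 : ℝ) ≤ x * 2 ^ (t + 1) * (1 + e * (3 / 4) ^ (t + 1)) := by
      have h3 : (1 : ℝ) ≤ 2 ^ (t + 1) := one_le_pow₀ (by norm_num)
      have h4 : (1 : ℝ) ≤ 1 + e * (3 / 4) ^ (t + 1) := by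
        have : 0 ≤ e * (3 / 4) ^ (t + 1) := by positivity
        linarith
      calc (1 : ℝ) = 1 * 1 * 1 := by norm_num
        _ ≤ x * 2 ^ (t + 1) * (1 + e * (3 / 4) ^ (t + 1)) := by gcongr
    linarith
  have hD0 : 0 < D := by linarith
  have hDle : D ≤ 4 * x * 2 ^ t := by
    have h1 : e * (3 / 4) ^ (t + 1) ≤ 1 / 2 := by
      have h3 : (3 / 4 : ℝ) ^ (t + 1) ≤ 1 := pow_le_one₀ (by norm_num) (by norm_num)
      have h4 : (0 : ℝ) ≤ (3 / 4) ^ (t + 1) := by positivity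
      nlinarith
    have h2 : x * 2 ^ (t + 1) * (1 + e * (3 / 4) ^ (t + 1)) ≤ x * 2 ^ (t + 1) * (3 / 2) := by
      apply mul_le_mul_of_nonneg_left _ (by positivity)
      linarith
    have h3 : x * 2 ^ (t + 1) * (3 / 2) = 3 * x * 2 ^ t := by rw [pow_succ]; ring
    have h4 : 1 ≤ x * 2 ^ t := by nlinarith
    have h5 : 4 * x * 2 ^ t = 3 * x * 2 ^ t + x * 2 ^ t := by ring
    linarith
  set lam : ℝ := x * e / 8 * (3 / 2) ^ t with hlam
  have hlam0 : 0 < lam := by positivity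
  have hdiff : lam ≤ D' - D / 2 := by
    have h1 : D / 2 < x * 2 ^ t * (1 + 3 / 4 * (e * (3 / 4) ^ t)) + 1 / 2 := by
      have h2 : x * 2 ^ (t + 1) * (1 + e * (3 / 4) ^ (t + 1)) + 1 =
          2 * (x * 2 ^ t * (1 + 3 / 4 * (e * (3 / 4) ^ t)) + 1 / 2) := by
        rw [pow_succ, pow_succ]; ring
      rw [h2] at a2
      linarith
    have h3 : x * 2 ^ t * (1 + e * (3 / 4) ^ t) -
        x * 2 ^ t * (1 + 3 / 4 * (e * (3 / 4) ^ t)) = x * e / 4 * (3 / 2) ^ t := by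
      rw [← hprod]; ring
    have h4 : 1 ≤ x * e / 4 * (3 / 2) ^ t := by
      have h5 : 1 ≤ x * e / 4 := by
        rw [div_le_iff₀ he] at hx2
        linarith
      have h6 : (1 : ℝ) ≤ (3 / 2) ^ t := one_le_pow₀ (by norm_num)
      nlinarith
    have h7 : lam = x * e / 4 * (3 / 2) ^ t / 2 := by rw [hlam]; ring
    linarith
  have hDpos' : 1 ≤ B e x (t + 1) := by
    have h1 : ((1 : ℕ) : ℝ) ≤ (B e x (t + 1) : ℝ) := by
      rw [Nat.cast_one]
      exact hDpos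
    exact_mod_cast h1
  refine ⟨hDpos', ?_, ?_⟩
  · have h1 : D ≤ 2 * D' := by linarith
    have h2 : ((B e x (t + 1) : ℕ) : ℝ) ≤ ((2 * B e x t : ℕ) : ℝ) := by
      push_cast
      exact h1
    exact_mod_cast h2
  · have h98 : 1 + (t : ℝ) / 8 ≤ (9 / 8) ^ t := by
      have h := one_add_mul_le_pow (show (-2 : ℝ) ≤ 1 / 8 by norm_num) t
      have e1 : (1 + (1 / 8 : ℝ)) = 9 / 8 := by norm_num
      rw [e1] at h
      linarith
    have hexp : c * x * (1 + (t : ℝ) / 8) ≤ 2 * (D' - D / 2) ^ 2 / D := by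
      rw [le_div_iff₀ hD0]
      have h1 : lam ^ 2 ≤ (D' - D / 2) ^ 2 := pow_le_pow_left₀ hlam0.le hdiff 2
      have h2 : lam ^ 2 = x ^ 2 * e ^ 2 / 64 * ((3 / 2) ^ t) ^ 2 := by rw [hlam]; ring
      have h3 : ((3 / 2 : ℝ) ^ t) ^ 2 = 2 ^ t * (9 / 8) ^ t := by
        rw [← pow_mul, mul_comm t 2, pow_mul, ← mul_pow]
        norm_num
      calc c * x * (1 + (t : ℝ) / 8) * D ≤ c * x * (9 / 8) ^ t * (4 * x * 2 ^ t) := by
            have h5 : 0 ≤ 1 + (t : ℝ) / 8 := by positivity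
            apply mul_le_mul _ hDle hD0.le (by positivity)
            apply mul_le_mul_of_nonneg_left h98 (by positivity)
        _ = 2 * lam ^ 2 := by
            rw [h2, h3, hc]; ring
        _ ≤ 2 * (D' - D / 2) ^ 2 := by linarith
    have hcx : 24 ≤ c * x := by
      rw [div_le_iff₀ hc0] at hx3
      linarith
    have hcx3 : 4608 * x ^ 2 ≤ (c * x) ^ 3 := by
      rw [div_le_iff₀ (by positivity)] at hx4
      calc 4608 * x ^ 2 ≤ x * c ^ 3 * x ^ 2 := by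
            apply mul_le_mul_of_nonneg_right hx4 (by positivity)
        _ = (c * x) ^ 3 := by ring
    have h4t : (4 : ℝ) ^ t ≤ Real.exp (c * x * ((t : ℝ) / 8)) := by
      have h1 : (4 : ℝ) ≤ Real.exp (c * x / 8) := by
        have := Real.add_one_le_exp (c * x / 8)
        linarith
      calc (4 : ℝ) ^ t ≤ (Real.exp (c * x / 8)) ^ t := pow_le_pow_left₀ (by norm_num) h1 t
        _ = Real.exp (c * x * ((t : ℝ) / 8)) := by
            rw [← Real.exp_nat_mul]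
            congr 1
            ring
    have hx2' : 768 * x ^ 2 ≤ Real.exp (c * x) := by
      have h1 := Real.pow_div_factorial_le_exp (c * x) (by positivity) 3
      have h2 : ((3 : ℕ).factorial : ℝ) = 6 := by norm_num [Nat.factorial]
      rw [h2] at h1
      calc 768 * x ^ 2 = 4608 * x ^ 2 / 6 := by ring
        _ ≤ (c * x) ^ 3 / 6 := by linarith
        _ ≤ Real.exp (c * x) := h1
    have hD2 : 48 * D ^ 2 ≤ 768 * x ^ 2 * 4 ^ t := by
      have h1 : D ^ 2 ≤ (4 * x * 2 ^ t) ^ 2 := pow_le_pow_left₀ hD0.le hDle 2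
      have h2 : (4 * x * 2 ^ t) ^ 2 = 16 * x ^ 2 * 4 ^ t := by
        rw [mul_pow, mul_pow, ← pow_mul, mul_comm t 2, pow_mul]
        norm_num
      rw [h2] at h1
      linarith
    have hfin : 48 * D ^ 2 ≤ Real.exp (2 * (D' - D / 2) ^ 2 / D) := by
      calc 48 * D ^ 2 ≤ 768 * x ^ 2 * 4 ^ t := hD2
        _ ≤ Real.exp (c * x) * Real.exp (c * x * ((t : ℝ) / 8)) :=
            mul_le_mul hx2' h4t (by positivity) (Real.exp_pos _).le
        _ = Real.exp (c * x * (1 + (t : ℝ) / 8)) := by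
            rw [← Real.exp_add]
            congr 1
            ring
        _ ≤ Real.exp (2 * (D' - D / 2) ^ 2 / D) := Real.exp_le_exp.mpr hexp
    rw [Real.exp_neg, ← div_eq_mul_inv, div_le_one (Real.exp_pos _)]
    exact hfin

/-- PACKET SPLIT. -/
theorem goalSPLIT (hH : GoalHALF) : GoalSPLIT := by
  intro η M1 hη
  set e : ℝ := min η 1 / 2 with he
  have he0 : 0 < e := by
    have : 0 < min η 1 := lt_min hη one_pos
    linarith
  have he2 : e ≤ 1 / 2 := by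
    have := min_le_right η 1
    linarith
  have heη : 2 * e ≤ η := by
    have := min_le_left η 1
    linarith
  obtain ⟨N1, hN1⟩ := exists_nat_ge (4 / e)
  obtain ⟨N2, hN2⟩ := exists_nat_ge (24 / (e ^ 2 / 128))
  obtain ⟨N3, hN3⟩ := exists_nat_ge (4608 / (e ^ 2 / 128) ^ 3)
  obtain ⟨M0, hM0⟩ : ∃ M0 : ℕ, M0 = M1 + 1 + N1 + N2 + N3 := ⟨_, rfl⟩
  refine ⟨M0, by omega, by omega, fun V _ H Δ hΔ hdeg => ?_⟩
  have hM0pos : 0 < M0 := by omega
  -- the number of steps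
  obtain ⟨T, hT⟩ : ∃ T, T = Nat.log 2 (Δ / M0) := ⟨_, rfl⟩
  have hdiv : Δ / M0 ≠ 0 := by
    have := Nat.div_pos hΔ hM0pos
    omega
  have hT1 : 2 ^ T * M0 ≤ Δ := by
    have h1 : 2 ^ T ≤ Δ / M0 := by rw [hT]; exact Nat.pow_log_le_self 2 hdiv
    calc 2 ^ T * M0 ≤ Δ / M0 * M0 := Nat.mul_le_mul_right _ h1
      _ ≤ Δ := Nat.div_mul_le_self _ _
  have hT2 : Δ < 2 ^ (T + 1) * M0 := by
    have h1 : Δ / M0 < 2 ^ (T + 1) := by rw [hT]; exact Nat.lt_pow_succ_log_self (by norm_num) _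
    exact (Nat.div_lt_iff_lt_mul hM0pos).mp h1
  obtain ⟨x, hx⟩ : ∃ x : ℝ, x = (Δ : ℝ) / 2 ^ T := ⟨_, rfl⟩
  have h2T : (0 : ℝ) < 2 ^ T := by positivity
  have hxT : x * 2 ^ T = Δ := by rw [hx]; field_simp
  have hxM : (M0 : ℝ) ≤ x := by
    rw [hx, le_div_iff₀ h2T, mul_comm]
    exact_mod_cast hT1
  have hx2M : x < 2 * M0 := by
    rw [hx, div_lt_iff₀ h2T]
    have h1 : (Δ : ℝ) < 2 ^ (T + 1) * M0 := by exact_mod_cast hT2
    calc (Δ : ℝ) < 2 ^ (T + 1) * M0 := h1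
      _ = 2 * M0 * 2 ^ T := by rw [pow_succ]; ring
  have hMr : (M0 : ℝ) = M1 + 1 + N1 + N2 + N3 := by rw [hM0]; push_cast; ring
  have hM1' : (0 : ℝ) ≤ M1 := Nat.cast_nonneg _
  have hN1' : (0 : ℝ) ≤ N1 := Nat.cast_nonneg _
  have hN2' : (0 : ℝ) ≤ N2 := Nat.cast_nonneg _
  have hN3' : (0 : ℝ) ≤ N3 := Nat.cast_nonneg _
  have hx1 : 1 ≤ x := by linarith
  have hstep := step_ok he0 he2 hx1 (by linarith) (by linarith) (by linarith)
  have hx0 : 0 < x := by linarith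
  -- the induction
  have key : ∀ s ≤ T, ∃ part : V → ℕ, NearBd H (2 ^ s) part (B e x (T - s)) ∧
      ∀ m, m < 2 ^ s → Fintype.card V / 2 ^ s ≤ Nat.card {v // part v = m} := by
    intro s
    induction s with
    | zero =>
      intro _
      refine ⟨fun _ => 0, ⟨fun _ => by norm_num, fun v m hm _ => ?_⟩, fun m hm => ?_⟩
      · have hm0 : m = 0 := by
          rw [pow_zero] at hm
          omega
        subst hm0
        have h1 : Nat.card {u // H.Adj v u ∧ (0 : ℕ) = 0} ≤ Δ := by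
          have h2 : Nat.card {u // H.Adj v u ∧ (0 : ℕ) = 0} = Nat.card {u // H.Adj v u} :=
            Nat.card_congr (Equiv.subtypeEquivRight fun u => by simp)
          rw [h2]
          exact hdeg v
        refine h1.trans ?_
        have h3 : (Δ : ℝ) ≤ B e x (T - 0) := by
          refine le_trans ?_ (le_B e x (T - 0))
          rw [Nat.sub_zero, hxT]
          have h4 : (1 : ℝ) ≤ 1 + e * (3 / 4) ^ T := by
            have : 0 ≤ e * (3 / 4) ^ T := by positivity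
            linarith
          have h5 : (0 : ℝ) ≤ Δ := Nat.cast_nonneg _
          nlinarith
        exact_mod_cast h3
      · have hm0 : m = 0 := by
          rw [pow_zero] at hm
          omega
        subst hm0
        rw [pow_zero, Nat.div_one]
        have h2 : Nat.card {v : V // (0 : ℕ) = 0} = Nat.card V :=
          Nat.card_congr (Equiv.subtypeUnivEquiv fun _ => rfl)
        rw [h2, Nat.card_eq_fintype_card]
    | succ s ih =>
      intro hs
      obtain ⟨part, hpart, hsize⟩ := ih (by omega)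
      have e1 : T - s = (T - (s + 1)) + 1 := by omega
      rw [e1] at hpart
      obtain ⟨b1, b2, b3⟩ := hstep (T - (s + 1))
      obtain ⟨part', -, hp2, hp3⟩ := hH V H (2 ^ s) part _ _ (Fintype.card V / 2 ^ s) b1 b2 hpart
        hsize b3
      refine ⟨part', ?_, fun m hm => ?_⟩
      · rw [pow_succ']
        exact hp2
      · rw [pow_succ'] at hm
        have h1 := hp3 m hm
        rw [Nat.div_div_eq_div_mul] at h1
        rw [pow_succ]
        exact h1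
  obtain ⟨part, hpart, hsize⟩ := key T le_rfl
  rw [Nat.sub_self] at hpart
  have hB0 : x * (1 + e) ≤ B e x 0 := by
    have h := le_B e x 0
    rw [pow_zero, pow_zero, mul_one, mul_one] at h
    exact h
  have hB1 : (B e x 0 : ℝ) < x * (1 + e) + 1 := by
    have h := B_lt he0.le hx0.le 0
    rw [pow_zero, pow_zero, mul_one, mul_one] at h
    exact h
  have hM0r : (1 : ℝ) ≤ M0 := by exact_mod_cast hM0pos
  refine ⟨2 ^ T, B e x 0, part, Nat.one_le_two_pow, ?_, ?_, hT1, ?_, hpart, hsize⟩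
  · have h1 : (M0 : ℝ) ≤ B e x 0 := by nlinarith
    exact_mod_cast h1
  · have h1 : (B e x 0 : ℝ) ≤ 5 * M0 := by nlinarith
    exact_mod_cast h1
  · have h1 : ((2 ^ T : ℕ) : ℝ) = 2 ^ T := by push_cast; ring
    rw [h1]
    have h2 : (2 : ℝ) ^ T * M0 ≤ Δ := by exact_mod_cast hT1
    have h3 : 1 ≤ e * M0 := by
      have h4 : 4 / e ≤ M0 := by linarith
      rw [div_le_iff₀ he0] at h4
      linarith
    have h5 : (2 : ℝ) ^ T ≤ e * Δ := by
      calc (2 : ℝ) ^ T = 2 ^ T * 1 := by ring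
        _ ≤ 2 ^ T * (e * M0) := mul_le_mul_of_nonneg_left h3 h2T.le
        _ = e * (2 ^ T * M0) := by ring
        _ ≤ e * Δ := mul_le_mul_of_nonneg_left h2 he0.le
    calc (2 : ℝ) ^ T * B e x 0 ≤ 2 ^ T * (x * (1 + e) + 1) :=
          mul_le_mul_of_nonneg_left hB1.le h2T.le
      _ = x * 2 ^ T * (1 + e) + 2 ^ T := by ring
      _ = Δ * (1 + e) + 2 ^ T := by rw [hxT]
      _ ≤ Δ * (1 + e) + e * Δ := by linarith
      _ = (1 + 2 * e) * Δ := by ring
      _ ≤ (1 + η) * Δ := by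
          apply mul_le_mul_of_nonneg_right _ (Nat.cast_nonneg _)
          linarith

end Pool.Agent.Helper94.Sey
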